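import Pool.Agent.helper24.CG.Spec2

/-!
# Project CG, row MAI2
-/

set_option autoImplicit false

namespace Pool.Agent.helper24.CG

open Finset

theorem MAI2_RR_nonneg (N m b q p J : ℕ) : 0 ≤ RR N m b q p J := by
  unfold RR
  have hl : 0 ≤ Real.log (N : ℝ) := Real.log_natCast_nonneg N
  have hb : (0 : ℝ) ≤ b := Nat.cast_nonneg b
  have hq : (0 : ℝ) ≤ q := Nat.cast_nonneg q
  have h1 : 0 ≤ Real.log (2 * (b : ℝ) + 3) := Real.log_nonneg (by linarith)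
  have h2 : 0 ≤ Real.log (2 * (2 * (b : ℝ) + 3) * ((q : ℝ) + 1)) := by
    apply Real.log_nonneg
    nlinarith [mul_nonneg hb hq]
  have h3 : 0 ≤ (q : ℝ) * Real.log N / p := by positivity
  have h4 : 0 ≤ Real.log ((LL N m q J (nn N m b q p) : ℕ) : ℝ) := Real.log_natCast_nonneg _
  linarith

/-- **MAI2**. -/
theorem MAI2 (h1 : COR_stmt) (h2 : FIN2_stmt) (h3 : ASY_stmt) (h4 : ALG2_stmt) (h5 : GAM_stmt) :
    MAI2_stmt := by
  obtain ⟨C, hC, halg⟩ := h4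
  refine ⟨C + 1, by linarith, ?_⟩
  intro b k m hb hk hkm
  have hbR : (1 : ℝ) ≤ b := by exact_mod_cast hb
  have hkR : (1 : ℝ) ≤ k := by exact_mod_cast hk
  have hm1 : 1 ≤ m := le_trans (Nat.one_le_pow _ _ hk) hkm
  have hmR : (1 : ℝ) ≤ m := by exact_mod_cast hm1
  obtain ⟨lam, hlam⟩ : ∃ lam : ℝ, lam = Real.log (1 + b) := ⟨_, rfl⟩
  have hlam0 : 0 < lam := by
    rw [hlam]
    exact Real.log_pos (by linarith)
  obtain ⟨M, hM⟩ : ∃ M : ℝ, M = max (2 / (b : ℝ)) (1 / Real.log (1 + b)) := ⟨_, rfl⟩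
  have hM0 : 0 < M := by
    rw [hM]
    exact lt_max_of_lt_left (by positivity)
  have hMl : 1 / lam ≤ M := by
    rw [hM, hlam]
    exact le_max_right _ _
  obtain ⟨x, hx⟩ : ∃ x : ℝ, x = (1 + (C + 1) / k) * M := ⟨_, rfl⟩
  have hCk : 0 < (C + 1) / (k : ℝ) := by positivity
  have hx0 : 0 < x := by
    rw [hx]
    positivity
  obtain ⟨N₀, hN₀⟩ := h3 b k m x hb hk hm1 hx0
  refine ⟨max N₀ ⌈Real.exp ((k : ℝ) ^ 2 * (1 + (b : ℝ)) * 10)⌉₊, ?_⟩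
  intro N hN
  have hNN : N₀ ≤ N := le_trans (le_max_left _ _) hN
  have hNe : ⌈Real.exp ((k : ℝ) ^ 2 * (1 + (b : ℝ)) * 10)⌉₊ ≤ N := le_trans (le_max_right _ _) hN
  have hNe' : Real.exp ((k : ℝ) ^ 2 * (1 + (b : ℝ)) * 10) ≤ N :=
    (Nat.le_ceil _).trans (by exact_mod_cast hNe)
  have hNR0 : (0 : ℝ) < N := (Real.exp_pos _).trans_le hNe'
  have hN1 : 1 ≤ N := by exact_mod_cast hNR0
  obtain ⟨l, hl⟩ : ∃ l : ℝ, l = Real.log N := ⟨_, rfl⟩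
  have hlb : (k : ℝ) ^ 2 * (1 + (b : ℝ)) * 10 ≤ l := by
    rw [hl, Real.le_log_iff_exp_le hNR0]
    exact hNe'
  have hk2one : (1 : ℝ) ≤ (k : ℝ) ^ 2 := one_le_pow₀ hkR
  have hl1 : 1 ≤ l := by
    refine le_trans ?_ hlb
    nlinarith
  rw [← hM, ← hl, ← hx]
  by_contra hcon
  have hcon' : x * m * l < A N m b := not_le.1 hcon
  obtain ⟨q, hq⟩ : ∃ q : ℕ, q = ⌈x * m * l⌉₊ := ⟨_, rfl⟩
  have hxml : 0 < x * m * l := by positivity
  have hqA : q ≤ A N m b := by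
    rw [hq]
    exact Nat.ceil_le.2 hcon'.le
  have hq1 : 1 ≤ q := by
    rw [hq]
    exact Nat.one_le_iff_ne_zero.2 (Nat.ceil_pos.2 hxml).ne'
  have hqx : x * m * l ≤ (q : ℝ) := by
    rw [hq]
    exact Nat.le_ceil _
  have hqx' : (q : ℝ) ≤ x * m * l + 1 := by
    rw [hq]
    exact (Nat.ceil_lt_add_one hxml.le).le
  obtain ⟨_, hmono, hgr⟩ := h5 N m b
  have hwin : MakerWins N m b q ∅ ∅ := hmono _ _ _ _ hqA hgr.1
  have hk3 : 1 ≤ k ^ 3 := Nat.one_le_pow _ _ hk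
  obtain ⟨H, K, hH, hK, hcov, hsplit⟩ := h1 N m b q (k ^ 3) (k ^ 3) hN1 hm1 hq1 hk3 hk3 hwin
  have hRR0 : 0 ≤ RR N m b q (k ^ 3) (k ^ 3) := MAI2_RR_nonneg _ _ _ _ _ _
  have hRR1 : RR N m b q (k ^ 3) (k ^ 3) ≤ 4 * x / (k : ℝ) ^ 3 * m * l ^ 2 := by
    rw [hq, hl]
    exact hN₀ N hNN
  have hml : 0 < (m : ℝ) * l := by positivity
  have hkl : 0 < (k : ℝ) * lam := by positivity
  have hu0 : 0 < (m : ℝ) * l / ((k : ℝ) ^ 2 * lam) := by positivity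
  have hk2 : (k : ℝ) ≤ (k : ℝ) ^ 2 := by nlinarith
  have huw : (m : ℝ) * l / ((k : ℝ) ^ 2 * lam) ≤ (m : ℝ) * l / (k * lam) :=
    div_le_div_of_nonneg_left hml.le hkl (mul_le_mul_of_nonneg_right hk2 hlam0.le)
  have hwq : (m : ℝ) * l / (k * lam) < q := by
    refine lt_of_lt_of_le ?_ hqx
    have h : 1 / ((k : ℝ) * lam) < x := by
      have e1 : 1 / ((k : ℝ) * lam) ≤ 1 / lam :=
        div_le_div_of_nonneg_left (by norm_num) hlam0 (by nlinarith)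
      have e2 : M < x := by
        rw [hx]
        nlinarith
      linarith
    have h' : (m : ℝ) * l / (k * lam) = 1 / ((k : ℝ) * lam) * (m * l) := by ring
    rw [h', mul_assoc]
    exact mul_lt_mul_of_pos_right h hml
  obtain ⟨δ, hδ0, hδ1, hδa, hδb⟩ : ∃ δ : ℝ, 0 < δ ∧ δ ≤ 1 ∧ (b ≤ 2 → δ = ((b : ℝ) * k)⁻¹) ∧
      (3 ≤ b → δ = 1 / 20) := by
    by_cases hb2 : b ≤ 2
    · have hbk : (1 : ℝ) ≤ (b : ℝ) * k := by nlinarith
      refine ⟨((b : ℝ) * k)⁻¹, inv_pos.2 (by linarith), inv_le_one_of_one_le₀ hbk, fun _ => rfl,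
        fun h => ?_⟩
      exfalso
      omega
    · refine ⟨1 / 20, by norm_num, by norm_num, fun h => absurd h hb2, fun _ => rfl⟩
  have hsplit' : ∀ H₂ H₁, H = H₂ ++ H₁ → ∃ B ⊆ K, Closed (k ^ 3) K H₁ B ∧ (H₁ = [] → B = ∅) ∧
      Real.log (gain b m (rest K B) H₁) + Real.log (gain b m (ed K) H₂) ≤
        ((q : ℝ) - B.card) * l + RR N m b q (k ^ 3) (k ^ 3) := by
    rw [hl]
    exact hsplit
  obtain ⟨hfin1, hfin2⟩ := h2 N m b q (k ^ 3) l (RR N m b q (k ^ 3) (k ^ 3))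
    ((m : ℝ) * l / ((k : ℝ) ^ 2 * lam)) ((m : ℝ) * l / (k * lam)) δ H K hm1 hb hk3 hH hK hcov
    hu0 huw hwq (by linarith) hRR0 hδ0 hδ1 hsplit'
  rw [hlam] at hfin2
  have hfinal := halg b k m (q : ℝ) l x (RR N m b q (k ^ 3) (k ^ 3)) δ hb hk hkm hlb hx0 hqx hqx'
    hRR0 hRR1 hδa hδb hfin1 hfin2
  rw [← hM] at hfinal
  have hlt : C / (k : ℝ) < (C + 1) / k := div_lt_div_of_pos_right (by linarith) (by linarith)
  have hlt2 : M * (1 + C / (k : ℝ)) < (1 + (C + 1) / k) * M := by nlinarith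
  linarith

end Pool.Agent.helper24.CG
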