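import Pool.Agent.helper24.CG.Spec2
import Pool.Agent.helper65.CG.FIN

/-!
# Row cg:FIN2 (MP_ba8873_co): the final inequality, uniform in b

Adapted from Pool/Agent/helper65/CG/FIN.lean.
-/

set_option autoImplicit false

namespace Pool.Agent.helper24.CG

open Finset

theorem FIN2_conc (b m : ℕ) (r : ℕ) (δ : ℝ) (hm : 1 ≤ m) (hδ : 0 < δ) (hr : (r : ℝ) ≤ δ * m) :
    Real.log (1 + (b : ℝ) * δ) / δ / m * r ≤ Real.log (1 + (b : ℝ) * (r : ℝ) / (m : ℝ)) := by
  have hm' : (0 : ℝ) < m := by exact_mod_cast hm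
  have hdm : 0 < δ * m := mul_pos hδ hm'
  have hp1 : (0 : ℝ) ≤ (r : ℝ) / (δ * m) := div_nonneg (Nat.cast_nonneg _) hdm.le
  have hp2 : (r : ℝ) / (δ * m) ≤ 1 := by
    rw [div_le_one hdm]
    exact hr
  have hb : (0 : ℝ) ≤ (b : ℝ) * δ := mul_nonneg (Nat.cast_nonneg b) hδ.le
  have h := rpow_one_add_le_one_add_mul_self (s := (b : ℝ) * δ) (by linarith) hp1 hp2
  have h1 : Real.log ((1 + (b : ℝ) * δ) ^ ((r : ℝ) / (δ * m))) ≤
      Real.log (1 + (r : ℝ) / (δ * m) * ((b : ℝ) * δ)) :=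
    Real.log_le_log (Real.rpow_pos_of_pos (by linarith) _) h
  rw [Real.log_rpow (by linarith)] at h1
  have e1 : Real.log (1 + (b : ℝ) * δ) / δ / m * r =
      (r : ℝ) / (δ * m) * Real.log (1 + (b : ℝ) * δ) := by
    field_simp
  have e2 : 1 + (b : ℝ) * (r : ℝ) / (m : ℝ) = 1 + (r : ℝ) / (δ * m) * ((b : ℝ) * δ) := by
    field_simp
  rw [e1, e2]
  exact h1

/-- the second alternative, for a given splitting -/
theorem FIN2_core (hHLN : HLN_stmt) (N m b J : ℕ) (δ : ℝ) (H₂ H₁ : List (ES N))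
    (K B : Finset (Fin N)) (hm : 1 ≤ m) (hb : 1 ≤ b) (hH : Hist N m (H₂ ++ H₁))
    (hcov : ∀ e ∈ ed K, ∃ E ∈ H₂ ++ H₁, e ∈ E) (hδ : 0 < δ)
    (hB : B ⊆ K) (hcl : Closed J K H₁ B) (ee γ : ℝ) (hγ : γ = (K.card : ℝ) - B.card)
    (he : ∑ E ∈ H₂.toFinset, ((E ∩ ed K).card : ℝ) ≤ ee) :
    Real.log (1 + b) / m * (γ * ((K.card : ℝ) - γ)) +
        Real.log (1 + (b : ℝ) * δ) / δ / m * (γ * (γ - 1) / 2 -
          ((K.card : ℝ) ^ 2 * (J : ℝ) ^ 2 / (4 * δ * m) + ee)) ≤
      Real.log (gain b m (rest K B) H₁) + Real.log (gain b m (ed K) H₂) := by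
  classical
  obtain ⟨-, hnd, -, -⟩ := hHLN N m _ hH
  have hm' : (0 : ℝ) < m := by exact_mod_cast hm
  have hb' : (1 : ℝ) ≤ b := by exact_mod_cast hb
  obtain ⟨hnd2, hnd1, hdis⟩ := List.nodup_append.1 hnd
  have hdisj : Disjoint H₂.toFinset H₁.toFinset := by
    rw [Finset.disjoint_left]
    intro E h2 h1
    exact hdis E (List.mem_toFinset.1 h2) E (List.mem_toFinset.1 h1) rfl
  have hsplit : ∀ f : ES N → ℝ, ∑ E ∈ (H₂ ++ H₁).toFinset, f E =
      ∑ E ∈ H₂.toFinset, f E + ∑ E ∈ H₁.toFinset, f E := by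
    intro f
    rw [List.toFinset_append, Finset.sum_union hdisj]
  have hcard : ∀ E ∈ H₂ ++ H₁, E.card ≤ m := fun E hE => (hH.mem E hE).2.2
  set r : ES N → ℝ := fun E => ((E ∩ rest K B).card : ℝ) with hr
  set g : ES N → ℝ := fun E => ((E ∩ ed (K \ B)).card : ℝ) with hg
  have hsr := FIN_cover hHLN _ hH K hcov (rest K B) (FIN_rest_sub K B)
  have hsg := FIN_cover hHLN _ hH K hcov (ed (K \ B)) ((FIN_sub K B).trans (FIN_rest_sub K B))
  rw [FIN_rest_card K B hB, hsplit] at hsr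
  have hKB : ((K \ B).card : ℝ) = γ := by
    have h1 := Finset.card_sdiff_add_card_eq_card hB
    have h2 : ((K \ B).card : ℝ) + (B.card : ℝ) = (K.card : ℝ) := by exact_mod_cast h1
    rw [hγ]; linarith
  rw [FIN_ed_card, hKB, hsplit] at hsg
  have hgr : ∀ E, g E ≤ r E := by
    intro E
    simp only [hr, hg]
    exact_mod_cast Finset.card_le_card (Finset.inter_subset_inter_left (FIN_sub K B))
  have hg0 : ∀ E, 0 ≤ g E := fun E => Nat.cast_nonneg _
  have hr0 : ∀ E, 0 ≤ r E := fun E => Nat.cast_nonneg _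
  have hrK : ∀ E, r E ≤ ((E ∩ ed K).card : ℝ) := by
    intro E
    simp only [hr]
    exact_mod_cast Finset.card_le_card (Finset.inter_subset_inter_left (FIN_rest_sub K B))
  have hlam : 0 ≤ Real.log (1 + (b : ℝ)) / m :=
    div_nonneg (Real.log_nonneg (by linarith)) hm'.le
  set c1 : ℝ := Real.log (1 + (b : ℝ)) / m with hc1
  set c2 : ℝ := Real.log (1 + (b : ℝ) * δ) / δ / m with hc2
  have hc20 : 0 ≤ c2 := by
    rw [hc2]
    refine div_nonneg (div_nonneg (Real.log_nonneg ?_) hδ.le) hm'.le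
    have : 0 ≤ (b : ℝ) * δ := mul_nonneg (by linarith) hδ.le
    linarith
  -- turns in H₁
  have h4 : ∀ E ∈ H₁.toFinset, c1 * (r E - g E) + c2 * (if r E < δ * m then g E else 0) ≤
      Real.log (1 + (b : ℝ) * ((E ∩ rest K B).card : ℝ) / (m : ℝ)) := by
    intro E hE
    have hE' : E ∈ H₂ ++ H₁ := List.mem_append_right _ (List.mem_toFinset.1 hE)
    have hle : (E ∩ rest K B).card ≤ m :=
      (Finset.card_le_card Finset.inter_subset_left).trans (hcard E hE')
    have hA : c1 * r E ≤ Real.log (1 + (b : ℝ) * ((E ∩ rest K B).card : ℝ) / (m : ℝ)) :=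
      FIN_conc b m _ hm hle
    split_ifs with hs
    · have hB2 : c2 * r E ≤ Real.log (1 + (b : ℝ) * ((E ∩ rest K B).card : ℝ) / (m : ℝ)) :=
        FIN2_conc b m _ δ hm hδ hs.le
      rcases le_total c1 c2 with hcc | hcc
      · have h5 : c1 * (r E - g E) ≤ c2 * (r E - g E) :=
          mul_le_mul_of_nonneg_right hcc (sub_nonneg.2 (hgr E))
        have h6 : c2 * (r E - g E) + c2 * g E = c2 * r E := by ring
        linarith
      · have h5 : c2 * g E ≤ c1 * g E := mul_le_mul_of_nonneg_right hcc (hg0 E)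
        have h6 : c1 * (r E - g E) + c1 * g E = c1 * r E := by ring
        linarith
    · have h5 : 0 ≤ c1 * g E := mul_nonneg hlam (hg0 E)
      have h6 : c1 * (r E - g E) + c1 * g E = c1 * r E := by ring
      linarith
  -- turns in H₂
  have h5 : ∀ E ∈ H₂.toFinset, c1 * (r E - g E) ≤
      Real.log (1 + (b : ℝ) * ((E ∩ ed K).card : ℝ) / (m : ℝ)) := by
    intro E hE
    have hE' : E ∈ H₂ ++ H₁ := List.mem_append_left _ (List.mem_toFinset.1 hE)
    have hle : (E ∩ ed K).card ≤ m :=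
      (Finset.card_le_card Finset.inter_subset_left).trans (hcard E hE')
    refine le_trans ?_ (FIN_conc b m _ hm hle)
    apply mul_le_mul_of_nonneg_left _ hlam
    have h1 := hg0 E
    have h2 := hrK E
    linarith
  have hs1 := Finset.sum_le_sum h4
  have hs2 := Finset.sum_le_sum h5
  rw [← FIN_log b m (rest K B) H₁ hnd1, Finset.sum_add_distrib, ← Finset.mul_sum,
    ← Finset.mul_sum, Finset.sum_sub_distrib] at hs1
  rw [← FIN_log b m (ed K) H₂ hnd2, ← Finset.mul_sum, Finset.sum_sub_distrib] at hs2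
  -- the heavy turns
  have h7 : ∀ E ∈ H₁.toFinset, g E ≤ (if r E < δ * m then g E else 0) +
      r E / (δ * m) * ((J : ℝ) ^ 2 / 2) := by
    intro E hE
    have hdm : 0 < δ * m := mul_pos hδ hm'
    have hJ : (0 : ℝ) ≤ (J : ℝ) ^ 2 / 2 := by positivity
    split_ifs with hs
    · have : 0 ≤ r E / (δ * m) * ((J : ℝ) ^ 2 / 2) :=
        mul_nonneg (div_nonneg (hr0 E) hdm.le) hJ
      linarith
    · have h1 : 1 ≤ r E / (δ * m) := by
        rw [one_le_div hdm]
        exact not_lt.1 hs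
      have h2 := FIN_closed J K B H₁ hcl E (List.mem_toFinset.1 hE)
      have h3 : 1 * ((J : ℝ) ^ 2 / 2) ≤ r E / (δ * m) * ((J : ℝ) ^ 2 / 2) :=
        mul_le_mul_of_nonneg_right h1 hJ
      have h4 : g E ≤ (J : ℝ) ^ 2 / 2 := h2
      linarith
  have hs3 := Finset.sum_le_sum h7
  rw [Finset.sum_add_distrib, ← Finset.sum_mul, ← Finset.sum_div] at hs3
  -- the sum of r over H₁
  have hr2 : ∑ E ∈ H₁.toFinset, r E ≤ (K.card : ℝ) ^ 2 / 2 := by
    have h1 : 0 ≤ ∑ E ∈ H₂.toFinset, r E := Finset.sum_nonneg fun E _ => hr0 E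
    have h2 : (B.card : ℝ) * ((B.card : ℝ) - 1) / 2 = ((ed B).card : ℝ) := (FIN_ed_card B).symm
    have h3 : (0 : ℝ) ≤ ((ed B).card : ℝ) := Nat.cast_nonneg _
    have h4 : (0 : ℝ) ≤ (K.card : ℝ) := Nat.cast_nonneg _
    have h5 : (K.card : ℝ) * ((K.card : ℝ) - 1) / 2 ≤ (K.card : ℝ) ^ 2 / 2 := by nlinarith
    linarith
  have hr3 : (∑ E ∈ H₁.toFinset, r E) / (δ * m) * ((J : ℝ) ^ 2 / 2) ≤
      (K.card : ℝ) ^ 2 * (J : ℝ) ^ 2 / (4 * δ * m) := by
    have hdm : 0 < δ * m := mul_pos hδ hm'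
    have h1 : (∑ E ∈ H₁.toFinset, r E) / (δ * m) ≤ ((K.card : ℝ) ^ 2 / 2) / (δ * m) :=
      div_le_div_of_nonneg_right hr2 hdm.le
    have h2 := mul_le_mul_of_nonneg_right h1 (by positivity : (0 : ℝ) ≤ (J : ℝ) ^ 2 / 2)
    refine h2.trans (le_of_eq ?_)
    field_simp
    ring
  have hg2 : ∑ E ∈ H₂.toFinset, g E ≤ ee := by
    refine le_trans (Finset.sum_le_sum fun E _ => ?_) he
    exact (hgr E).trans (hrK E)
  have h8 : γ * (γ - 1) / 2 - ((K.card : ℝ) ^ 2 * (J : ℝ) ^ 2 / (4 * δ * m) + ee) ≤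
      ∑ E ∈ H₁.toFinset, (if r E < δ * m then g E else 0) := by
    linarith
  have h9 := mul_le_mul_of_nonneg_left h8 hc20
  have h10 : γ * ((K.card : ℝ) - γ) = (∑ E ∈ H₂.toFinset, r E + ∑ E ∈ H₁.toFinset, r E) -
      (∑ E ∈ H₂.toFinset, g E + ∑ E ∈ H₁.toFinset, g E) := by
    rw [hsr, hsg, hγ]
    ring
  have h11 : c1 * (γ * ((K.card : ℝ) - γ)) =
      c1 * (∑ E ∈ H₁.toFinset, r E - ∑ E ∈ H₁.toFinset, g E) +
      c1 * (∑ E ∈ H₂.toFinset, r E - ∑ E ∈ H₂.toFinset, g E) := by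
    rw [h10]; ring
  rw [h11]
  linarith

theorem FIN2 (h1 : HLN_stmt) (_h2 : MUL_stmt) : FIN2_stmt := by
  intro N m b q J ℓ Rr u w δ H K hm hb hJ hH hK hcov hu huw hwq hℓ hRr hδ _hδ1 hsp
  have hm' : (0 : ℝ) < m := by exact_mod_cast hm
  have hb' : (1 : ℝ) ≤ b := by exact_mod_cast hb
  have hlogpos : 0 < Real.log (1 + (b : ℝ)) := Real.log_pos (by linarith)
  obtain ⟨-, hnd, -, -⟩ := h1 N m _ hH
  subst hK
  -- splitting with H₁ = []
  obtain ⟨B₀, hB₀, hcl₀, hB₀e, hlog₀⟩ := hsp H [] (by simp)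
  have hB₀e' := hB₀e rfl
  subst hB₀e'
  refine ⟨?_, ?_⟩
  · have h3 := FIN_one h1 N m b H [] K ∅ hm (by simpa using hH) (by simpa using hcov)
    rw [FIN_rest_card K ∅ (Finset.empty_subset _)] at h3
    simp only [Finset.card_empty, Nat.cast_zero, zero_mul, zero_div, sub_zero] at h3 hlog₀
    linarith
  · by_cases hin : ∃ H₂ H₁, H = H₂ ++ H₁ ∧ ∃ B ⊆ K, u ≤ (K.card : ℝ) - B.card ∧
        (K.card : ℝ) - B.card ≤ w ∧
        Real.log (gain b m (rest K B) H₁) + Real.log (gain b m (ed K) H₂) ≤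
          ((K.card : ℝ) - B.card) * ℓ + Rr
    · left
      obtain ⟨H₂, H₁, hHH, B, hBK, hu1, hw1, hlog⟩ := hin
      refine ⟨(K.card : ℝ) - B.card, hu1, hw1, ?_⟩
      have h3 := FIN_one h1 N m b H₂ H₁ K B hm (by rw [← hHH]; exact hH)
        (by rw [← hHH]; exact hcov)
      rw [FIN_rest_card K B hBK] at h3
      refine le_trans (le_of_eq ?_) (h3.trans hlog)
      ring
    · right
      have hor : ∀ H₂ H₁, H = H₂ ++ H₁ →
          (∃ B ⊆ K, Closed J K H₁ B ∧ Real.log (gain b m (rest K B) H₁) +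
            Real.log (gain b m (ed K) H₂) ≤ ((K.card : ℝ) - B.card) * ℓ + Rr ∧
            w < (K.card : ℝ) - B.card) ∨
          (∃ B ⊆ K, Real.log (gain b m (rest K B) H₁) +
            Real.log (gain b m (ed K) H₂) ≤ ((K.card : ℝ) - B.card) * ℓ + Rr ∧
            (K.card : ℝ) - B.card < u) := by
        intro H₂ H₁ hHH
        obtain ⟨B, hBK, hcl, -, hlog⟩ := hsp H₂ H₁ hHH
        rcases lt_or_ge ((K.card : ℝ) - B.card) u with hlt | hge
        · exact Or.inr ⟨B, hBK, hlog, hlt⟩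
        · left
          refine ⟨B, hBK, hcl, hlog, ?_⟩
          by_contra hcon
          exact hin ⟨H₂, H₁, hHH, B, hBK, hge, not_lt.1 hcon, hlog⟩
      have h0 : ∃ B ⊆ K, Closed J K [] B ∧ Real.log (gain b m (rest K B) []) +
            Real.log (gain b m (ed K) H) ≤ ((K.card : ℝ) - B.card) * ℓ + Rr ∧
            w < (K.card : ℝ) - B.card := by
        refine ⟨∅, hB₀, hcl₀, hlog₀, ?_⟩
        simpa using hwq
      have hee0 : 0 ≤ (u * ℓ + Rr) * m / Real.log (1 + b) := by positivity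
      -- the second alternative, from a splitting with small H₂
      have hfin : ∀ H₂ H₁, H = H₂ ++ H₁ →
          ∑ E ∈ H₂.toFinset, ((E ∩ ed K).card : ℝ) ≤
            m + (u * ℓ + Rr) * m / Real.log (1 + b) →
          (∃ B ⊆ K, Closed J K H₁ B ∧ Real.log (gain b m (rest K B) H₁) +
            Real.log (gain b m (ed K) H₂) ≤ ((K.card : ℝ) - B.card) * ℓ + Rr ∧
            w < (K.card : ℝ) - B.card) →
          ∃ γ : ℝ, w < γ ∧ γ ≤ (K.card : ℝ) ∧
            Real.log (1 + b) / m * (γ * ((K.card : ℝ) - γ)) +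
              Real.log (1 + (b : ℝ) * δ) / δ / m * (γ * (γ - 1) / 2 -
                ((K.card : ℝ) ^ 2 * (J : ℝ) ^ 2 / (4 * δ * m) + m +
                  (u * ℓ + Rr) * m / Real.log (1 + b))) ≤ γ * ℓ + Rr := by
        intro H₂ H₁ hHH he
        rintro ⟨B, hBK, hcl, hlog, hw⟩
        refine ⟨(K.card : ℝ) - B.card, hw, ?_, ?_⟩
        · have : (0 : ℝ) ≤ B.card := Nat.cast_nonneg _
          linarith
        · have h3 := FIN2_core h1 N m b J δ H₂ H₁ K B hm hb (by rw [← hHH]; exact hH)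
            (by rw [← hHH]; exact hcov) hδ hBK hcl _ _ rfl he
          refine le_trans (le_of_eq ?_) (h3.trans hlog)
          ring
      rcases FIN_split H _ _ h0 hor with hbig | ⟨H₂, E, H₁, hHH, hbig, B, hBK, hlog, hlt⟩
      · refine hfin [] H (by simp) ?_ hbig
        simp only [List.toFinset_nil, Finset.sum_empty]
        linarith
      · have hHH' : H = (H₂ ++ [E]) ++ H₁ := by rw [hHH]; simp
        refine hfin (H₂ ++ [E]) H₁ hHH' ?_ hbig
        have hnd' := hnd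
        rw [hHH] at hnd'
        obtain ⟨hnd2, hnd1, hdis⟩ := List.nodup_append.1 hnd'
        have hdisj : Disjoint H₂.toFinset [E].toFinset := by
          rw [Finset.disjoint_left]
          intro F hF2 hF1
          rw [List.mem_toFinset, List.mem_singleton] at hF1
          exact hdis F (List.mem_toFinset.1 hF2) E (by simp) hF1
        rw [List.toFinset_append, Finset.sum_union hdisj]
        have hmemE : E ∈ H := by rw [hHH]; simp
        have hE1 : ∑ F ∈ [E].toFinset, ((F ∩ ed K).card : ℝ) ≤ m := by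
          simp only [List.toFinset_cons, List.toFinset_nil, insert_empty_eq,
            Finset.sum_singleton]
          exact_mod_cast (Finset.card_le_card Finset.inter_subset_left).trans
            (hH.mem E hmemE).2.2
        have hE2 : ∑ F ∈ H₂.toFinset, ((F ∩ ed K).card : ℝ) ≤
            (u * ℓ + Rr) * m / Real.log (1 + b) := by
          rw [le_div_iff₀ hlogpos]
          have h3 := FIN_log_ge b m hm (ed K) H₂ hnd2 fun F hF =>
            (hH.mem F (by rw [hHH]; exact List.mem_append_left _ hF)).2.2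
          have h4 := FIN_log_nonneg b m (rest K B) (E :: H₁) hnd1
          have h5 : ((K.card : ℝ) - B.card) * ℓ ≤ u * ℓ :=
            mul_le_mul_of_nonneg_right hlt.le hℓ
          have h6 : Real.log (1 + b) / m * ∑ F ∈ H₂.toFinset, ((F ∩ ed K).card : ℝ) ≤
              u * ℓ + Rr := by linarith
          have h7 := mul_le_mul_of_nonneg_right h6 hm'.le
          refine le_trans (le_of_eq ?_) h7
          field_simp
        linarith

end Pool.Agent.helper24.CG
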